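import Mathlib
import Pool.Agent.W941.UL.Tools
import Pool.Agent.W941.UL.Defs
import Pool.Agent.Helper317.Atr.Sanity

/-! `β`-models are models of `ATR₀`. -/

namespace Pool.Agent.W941.BM

open Pool.Agent.Helper617.RM Pool.Agent.Helper317.Atr Pool.Agent.W941.UL

set_option linter.unusedSectionVars false
set_option linter.unusedVariables false

/-- the `ω`-structure with the given family of sets -/
def nat (S : Set (Set ℕ)) : L2Structure.{0} where
  M := ℕ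
  zero := 0
  one := 1
  add := (· + ·)
  mul := (· * ·)
  lt := (· < ·)
  Sets := S

/-- satisfiable arithmetical conditions have solutions in the structure -/
def IsBeta (N : L2Structure.{0}) : Prop := ∀ (θ : OpForm N) (v : ℕ → N.M),
  (∃ Y : Set N.M, θ.Holds Y v) → ∃ Y ∈ N.Sets, θ.Holds Y v

theorem IsBeta.ay {N : L2Structure.{0}} (h : IsBeta N) {R : Ctx N → Set N.M → Prop} (hR : AY R)
    (v : Ctx N) (hY : ∃ Y, R v Y) : ∃ Y ∈ N.Sets, R v Y := by
  obtain ⟨φ, hφ⟩ := hR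
  obtain ⟨Y, hY⟩ := hY
  obtain ⟨Y', h1, h2⟩ := h φ v ⟨Y, (hφ _ _).2 hY⟩
  exact ⟨Y', h1, (hφ _ _).1 h2⟩

theorem AY_of_AForm {N : L2Structure.{0}} (φ : AForm N) : AY (fun v _ => φ.Holds v) := by
  induction φ with
  | eq s t => exact ⟨.eq s t, fun _ _ => Iff.rfl⟩
  | lt s t => exact ⟨.lt s t, fun _ _ => Iff.rfl⟩
  | mem t X => exact ⟨.mem t X, fun _ _ => Iff.rfl⟩
  | neg φ ih => exact ih.not
  | and φ ψ ih1 ih2 => exact ih1.and ih2
  | all φ ih =>
    refine AY.all (P := fun v Y a => φ.Holds (cons a v)) ?_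
    exact ih.congr fun w Y => by rw [cons_tail]

theorem AY_subst {N : L2Structure.{0}} (φ : OpForm N) : ∀ (S : Ctx N → N.M → Set N.M → Prop),
    AY (fun w Y => S (tail w) (w 0) Y) → ∀ (g : Ctx N → Ctx N), CM g →
      AY (fun v Y => φ.Holds {p | S v p Y} (g v)) := by
  induction φ with
  | eq s t =>
    intro S hS g hg
    obtain ⟨σ, hσ⟩ := Tm.comp (t := fun v => s.val v) ⟨s, fun _ => rfl⟩ hg
    obtain ⟨τ, hτ⟩ := Tm.comp (t := fun v => t.val v) ⟨t, fun _ => rfl⟩ hg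
    exact ⟨.eq σ τ, fun v Y => by simp only [OpForm.Holds, hσ, hτ]⟩
  | lt s t =>
    intro S hS g hg
    obtain ⟨σ, hσ⟩ := Tm.comp (t := fun v => s.val v) ⟨s, fun _ => rfl⟩ hg
    obtain ⟨τ, hτ⟩ := Tm.comp (t := fun v => t.val v) ⟨t, fun _ => rfl⟩ hg
    exact ⟨.lt σ τ, fun v Y => by simp only [OpForm.Holds, hσ, hτ]⟩
  | mem t X =>
    intro S hS g hg
    obtain ⟨τ, hτ⟩ := Tm.comp (t := fun v => t.val v) ⟨t, fun _ => rfl⟩ hg
    exact ⟨.mem τ X, fun v Y => by simp only [OpForm.Holds, hτ]⟩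
  | memY t =>
    intro S hS g hg
    exact hS.comp (g := fun v => cons (t.val (g v)) v)
      (CM.cons (Tm.comp (t := fun v => t.val v) ⟨t, fun _ => rfl⟩ hg) CM.id)
  | neg φ ih =>
    intro S hS g hg
    exact (ih S hS g hg).not
  | and φ ψ ih1 ih2 =>
    intro S hS g hg
    exact (ih1 S hS g hg).and (ih2 S hS g hg)
  | all φ ih =>
    intro S hS g hg
    refine AY.all (P := fun v Y a => φ.Holds {p | S v p Y} (cons a (g v))) ?_
    refine ih (fun w p Y => S (tail w) p Y) ?_ (fun w => cons (w 0) (g (tail w))) ?_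
    · exact hS.comp (g := fun w => cons (w 0) (tail (tail w))) (CM.cons (Tm.var 0) CM.tail.tail')
    · exact CM.cons (Tm.var 0) (fun i => (hg i).tail)

theorem IsBeta.rca {S : Set (Set ℕ)} (h : IsBeta (nat S)) : IsModelRCA0 (nat S) where
  ax_succ_ne_zero n := Nat.succ_ne_zero n
  ax_succ_inj m n h := Nat.succ.inj h
  ax_add_zero m := rfl
  ax_add_succ m n := rfl
  ax_mul_zero m := rfl
  ax_mul_succ m n := rfl
  ax_not_lt_zero m := Nat.not_lt_zero m
  ax_lt_succ m n := Nat.lt_succ_iff_lt_or_eq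
  sigma1_induction θ v h0 hs n := Nat.rec h0 hs n
  delta1_comprehension θ ψ v _ := by
    have hR : AY (N := nat S) (fun v Y => ∀ n, (n ∈ Y ↔ ∃ k, θ.Holds (cons k (cons n v)))) := by
      refine AY.all (AY.iff (AY.memY (Tm.var 0)) (AY.ex ?_))
      exact (AY.of_Delta0 θ).congr fun w Y => by rw [cons_tail, cons_tail]
    obtain ⟨Y, h1, h2⟩ := h.ay hR v ⟨{n | ∃ k, θ.Holds (cons k (cons n v))}, fun n => Iff.rfl⟩
    convert h1 using 1
    ext n
    exact (h2 n).symm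

theorem IsBeta.aca {N : L2Structure.{0}} (h : IsBeta N) : ArithComp N := by
  intro φ v
  have hR : AY (N := N) (fun v Y => ∀ n, (n ∈ Y ↔ φ.Holds (cons n v))) := by
    refine AY.all (AY.iff (AY.memY (Tm.var 0)) ?_)
    exact (AY_of_AForm φ).congr fun w Y => by rw [cons_tail]
  obtain ⟨Y, h1, h2⟩ := h.ay hR v ⟨{n | φ.Holds (cons n v)}, fun n => Iff.rfl⟩
  convert h1 using 1
  ext n
  exact (h2 n).symm

/-- the set codes a function -/
def Fn {N : L2Structure.{0}} [IsModelRCA0 N] (Y : Set N.M) : Prop :=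
  (∀ i, ∃ c, pr i c ∈ Y) ∧ ∀ i a b, pr i a ∈ Y → pr i b ∈ Y → a = b

theorem Fn_AY {N : L2Structure.{0}} [IsModelRCA0 N] : AY (N := N) (fun _ Y => Fn Y) := by
  refine AY.and (AY.all (AY.ex (AY.memY ((Tm.var 1).pr (Tm.var 0))))) (AY.all (AY.all (AY.all
    (AY.imp ?_ (AY.imp ?_ ?_)))))
  · exact AY.memY ((Tm.var 2).pr (Tm.var 1))
  · exact AY.memY ((Tm.var 2).pr (Tm.var 0))
  · exact AY.of_D0 (D0.eq (Tm.var 1) (Tm.var 0))

/-- well-orderings of a `β`-model are well-founded -/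
theorem IsBeta.wf {S : Set (Set ℕ)} (h : IsBeta (nat S)) {D : Set ℕ} {R : ℕ → ℕ → Prop}
    (hW : IsWellOrd (nat S) D R) : WellFounded (fun i j => R i j ∧ i ≠ j) := by
  haveI := h.rca
  haveI : Sig1 (nat S) := sig1_of_arithComp h.aca
  have hRD : D0 (N := nat S) (fun v => R (v 0) (v 1)) := D0.of_codeRel hW.rel
  rw [wellFounded_iff_isEmpty_descending_chain]
  refine ⟨fun ⟨f, hf⟩ => ?_⟩
  have hAY : AY (N := nat S) (fun v Y => Fn Y ∧ ∀ i a b, pr i a ∈ Y → pr (i + 1) b ∈ Y →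
      (R b a ∧ ¬ b = a)) := by
    refine AY.and Fn_AY (AY.all (AY.all (AY.all (AY.imp ?_ (AY.imp ?_ ?_)))))
    · exact AY.memY ((Tm.var 2).pr (Tm.var 1))
    · exact AY.memY (((Tm.var 2).add Tm.one).pr (Tm.var 0))
    · exact AY.of_D0 (D0.and (hRD.rel (Tm.var 0) (Tm.var 1)) (D0.eq (Tm.var 0) (Tm.var 1)).not)
  obtain ⟨Y, hY, ⟨h1, h2⟩, h3⟩ := h.ay hAY (fun _ => (0 : ℕ))
    ⟨{p | ∃ i : (nat S).M, p = pr i (f i : (nat S).M)}, ⟨fun i => ⟨f i, i, rfl⟩, by
      rintro i a b ⟨i', h1⟩ ⟨i'', h2⟩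
      obtain ⟨rfl, rfl⟩ := pr_inj h1
      obtain ⟨h3, rfl⟩ := pr_inj h2
      rw [h3]⟩, by
      rintro i a b ⟨i', h1⟩ ⟨i'', h2⟩
      obtain ⟨rfl, rfl⟩ := pr_inj h1
      obtain ⟨rfl, rfl⟩ := pr_inj h2
      exact hf _⟩
  choose g hg using h1
  refine hW.noDesc ⟨g, ?_, fun i => h3 i _ _ (hg i) (hg _)⟩
  refine codeRel_mem_D0 (R := fun x y => y = g x) ((D0.mem ((Tm.var 0).pr (Tm.var 1)) hY).congr
    fun v => ⟨fun h => h2 _ _ _ h (hg _), fun h => by
      have h' : v 1 = g (v 0) := h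
      rw [h']; exact hg _⟩)

theorem IsBeta.atr {S : Set (Set ℕ)} (h : IsBeta (nat S)) : IsModelATR0 (nat S) where
  rca := h.rca
  aca := h.aca
  atr := by
    have := h.rca
    have : Sig1 (nat S) := sig1_of_arithComp h.aca
    intro D R hW θ v
    have hwf := h.wf hW
    let F : (nat S).M → Set (nat S).M := hwf.fix fun j ih =>
      {n | θ.Holds {p | ∃ m i, ∃ h : R i j ∧ i ≠ j, m ∈ ih i h ∧ p = (nat S).pair m i}
        (cons n v)}
    have hF : ∀ j, F j = {n | θ.Holds {p | ∃ m i, ∃ h : R i j ∧ i ≠ j, m ∈ F i ∧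
        p = (nat S).pair m i} (cons n v)} := fun j => hwf.fix_eq _ j
    have hRD : D0 (N := nat S) (fun v => R (v 0) (v 1)) := D0.of_codeRel hW.rel
    have hAY : AY (N := nat S) (fun v Y => ∀ p, (p ∈ Y ↔ ∃ n j, j ∈ D ∧
        p = (nat S).pair n j ∧ θ.Holds (Below (nat S) R Y j) (cons n v))) := by
      refine AY.all (AY.iff (AY.memY (Tm.var 0)) (AY.ex (AY.ex (AY.and ?_ (AY.and ?_ ?_)))))
      · exact AY.of_D0 (D0.mem (Tm.var 0) hW.mem)
      · exact AY.of_D0 (D0.eq (Tm.var 2) ((Tm.var 1).pr (Tm.var 0)))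
      · refine AY_subst θ (fun w p Y => p ∈ Y ∧ ∃ m i, R i (w 0) ∧ i ≠ w 0 ∧
          p = (nat S).pair m i) ?_ (fun w => cons (w 1) (tail (tail (tail w)))) ?_
        · refine AY.and (AY.memY (Tm.var 0)) (AY.of_D0 (D0.ex (D0.ex (D0.and ?_ (D0.and ?_ ?_)))))
          · exact hRD.rel (Tm.var 0) (Tm.var 3)
          · exact (D0.eq (Tm.var 0) (Tm.var 3)).not
          · exact D0.eq (Tm.var 2) ((Tm.var 1).pr (Tm.var 0))
        · exact CM.cons (Tm.var 1) CM.tail.tail'.tail'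
    obtain ⟨Y, h1, h2⟩ := h.ay hAY v
      ⟨{p | ∃ n j, j ∈ D ∧ p = (nat S).pair n j ∧ n ∈ F j}, fun p => by
        have hB : ∀ j, Below (nat S) R {p | ∃ n j, j ∈ D ∧ p = (nat S).pair n j ∧ n ∈ F j} j =
            {p | ∃ m i, ∃ h : R i j ∧ i ≠ j, m ∈ F i ∧ p = (nat S).pair m i} := by
          intro j
          ext q
          constructor
          · rintro ⟨⟨n, i', _, h2, h3⟩, m, i, h4, h5, h6⟩
            obtain ⟨rfl, rfl⟩ := pr_inj (h2.symm.trans h6)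
            exact ⟨n, i', ⟨h4, h5⟩, h3, h2⟩
          · rintro ⟨m, i, ⟨h4, h5⟩, h3, h2⟩
            exact ⟨⟨m, i, (hW.dom _ _ h4).1, h2, h3⟩, m, i, h4, h5, h2⟩
        constructor
        · rintro ⟨n, j, h1, h2, h3⟩
          refine ⟨n, j, h1, h2, ?_⟩
          rw [hB j]
          rw [hF j] at h3
          exact h3
        · rintro ⟨n, j, h1, h2, h3⟩
          refine ⟨n, j, h1, h2, ?_⟩
          rw [hB j] at h3
          rw [hF j]
          exact h3⟩
    exact ⟨Y, h1, h2⟩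

end Pool.Agent.W941.BM
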