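import Mathlib
import Pool.Agent.W941.BM.Beta

/-! Formulas with one set variable: countability, and closed conditions. -/

namespace Pool.Agent.W941.BM

open Pool.Agent.Helper617.RM Pool.Agent.Helper317.Atr Pool.Agent.W941.UL

set_option linter.unusedSectionVars false
set_option linter.unusedVariables false

/-! ### countability -/

def encT {S : Set (Set ℕ)} : Term (nat S) → ℕ
  | .var i => Nat.pair 0 i
  | .const a => Nat.pair 1 (a : ℕ)
  | .zero => Nat.pair 2 0
  | .one => Nat.pair 3 0
  | .add s t => Nat.pair 4 (Nat.pair (encT s) (encT t))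
  | .mul s t => Nat.pair 5 (Nat.pair (encT s) (encT t))

theorem encT_inj {S : Set (Set ℕ)} : ∀ s t : Term (nat S), encT s = encT t → s = t := by
  intro s
  induction s with
  | var i =>
    intro t h
    cases t with
    | var i' => rw [show i = i' from (Nat.pair_eq_pair.1 h).2]
    | _ => exact absurd (Nat.pair_eq_pair.1 h).1 (by decide)
  | const a =>
    intro t h
    cases t with
    | const a' => rw [show a = a' from (Nat.pair_eq_pair.1 h).2]
    | _ => exact absurd (Nat.pair_eq_pair.1 h).1 (by decide)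
  | zero =>
    intro t h
    cases t with
    | zero => rfl
    | _ => exact absurd (Nat.pair_eq_pair.1 h).1 (by decide)
  | one =>
    intro t h
    cases t with
    | one => rfl
    | _ => exact absurd (Nat.pair_eq_pair.1 h).1 (by decide)
  | add s1 s2 ih1 ih2 =>
    intro t h
    cases t with
    | add t1 t2 =>
      have h1 := Nat.pair_eq_pair.1 (Nat.pair_eq_pair.1 h).2
      rw [ih1 _ h1.1, ih2 _ h1.2]
    | _ => exact absurd (Nat.pair_eq_pair.1 h).1 (by decide)
  | mul s1 s2 ih1 ih2 =>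
    intro t h
    cases t with
    | mul t1 t2 =>
      have h1 := Nat.pair_eq_pair.1 (Nat.pair_eq_pair.1 h).2
      rw [ih1 _ h1.1, ih2 _ h1.2]
    | _ => exact absurd (Nat.pair_eq_pair.1 h).1 (by decide)

def encF : OpForm (nat ∅) → ℕ
  | .eq s t => Nat.pair 0 (Nat.pair (encT s) (encT t))
  | .lt s t => Nat.pair 1 (Nat.pair (encT s) (encT t))
  | .mem t X => Nat.pair 2 0
  | .memY t => Nat.pair 3 (encT t)
  | .neg φ => Nat.pair 4 (encF φ)
  | .and φ ψ => Nat.pair 5 (Nat.pair (encF φ) (encF ψ))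
  | .all φ => Nat.pair 6 (encF φ)

theorem encF_inj : ∀ φ ψ : OpForm (nat ∅), encF φ = encF ψ → φ = ψ := by
  intro φ
  induction φ with
  | eq s t =>
    intro ψ h
    cases ψ with
    | eq s' t' =>
      have h1 := Nat.pair_eq_pair.1 (Nat.pair_eq_pair.1 h).2
      rw [encT_inj _ _ h1.1, encT_inj _ _ h1.2]
    | _ => exact absurd (Nat.pair_eq_pair.1 h).1 (by decide)
  | lt s t =>
    intro ψ h
    cases ψ with
    | lt s' t' =>
      have h1 := Nat.pair_eq_pair.1 (Nat.pair_eq_pair.1 h).2
      rw [encT_inj _ _ h1.1, encT_inj _ _ h1.2]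
    | _ => exact absurd (Nat.pair_eq_pair.1 h).1 (by decide)
  | mem t X => exact absurd X.2 (Set.notMem_empty _)
  | memY t =>
    intro ψ h
    cases ψ with
    | memY t' => rw [encT_inj _ _ (Nat.pair_eq_pair.1 h).2]
    | _ => exact absurd (Nat.pair_eq_pair.1 h).1 (by decide)
  | neg φ ih =>
    intro ψ h
    cases ψ with
    | neg ψ' => rw [ih _ (Nat.pair_eq_pair.1 h).2]
    | _ => exact absurd (Nat.pair_eq_pair.1 h).1 (by decide)
  | and φ ψ ih1 ih2 =>
    intro χ h
    cases χ with
    | and χ1 χ2 =>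
      have h1 := Nat.pair_eq_pair.1 (Nat.pair_eq_pair.1 h).2
      rw [ih1 _ h1.1, ih2 _ h1.2]
    | _ => exact absurd (Nat.pair_eq_pair.1 h).1 (by decide)
  | all φ ih =>
    intro ψ h
    cases ψ with
    | all ψ' => rw [ih _ (Nat.pair_eq_pair.1 h).2]
    | _ => exact absurd (Nat.pair_eq_pair.1 h).1 (by decide)

/-- an enumeration of the formulas in which each formula appears arbitrarily late -/
theorem exists_tasks : ∃ τ : ℕ → OpForm (nat ∅), ∀ φ k, ∃ j, k ≤ j ∧ τ j = φ := by
  classical
  have hc : Countable (OpForm (nat ∅)) := ⟨encF, fun φ ψ h => encF_inj φ ψ h⟩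
  have : Nonempty (OpForm (nat ∅)) := ⟨.eq .zero .zero⟩
  obtain ⟨f, hf⟩ := exists_surjective_nat (OpForm (nat ∅))
  refine ⟨fun j => f (Nat.unpair j).1, fun φ k => ?_⟩
  obtain ⟨e, he⟩ := hf φ
  exact ⟨Nat.pair e k, Nat.right_le_pair e k, by
    show f (Nat.unpair (Nat.pair e k)).1 = φ
    rw [Nat.unpair_pair]; exact he⟩

/-! ### the closed conditions -/

/-- pairing -/
def prn (a b : ℕ) : ℕ := (a + b) * (a + b) + a

theorem prn_inj {a b c d : ℕ} (h : prn a b = prn c d) : a = c ∧ b = d :=
  have : IsModelRCA0 fullModel := fullModel_isModel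
  pr_inj (N := fullModel) (x := a) (y := b) (x' := c) (y' := d) h

theorem le_prn (a b : ℕ) : a ≤ prn a b := Nat.le_add_left _ _

/-- the columns before `j` of `Z`, as a set -/
def GJ (j : ℕ) (Z : ℕ → ℕ) : Set ℕ :=
  {x | ∃ i n m, x = prn (prn i n) m ∧ i < j ∧ Z (prn i n) = m}

/-- join -/
def jn (Y G : Set ℕ) : Set ℕ :=
  {x | (∃ n, x = prn 0 n ∧ n ∈ Y) ∨ ∃ n, x = prn 1 n ∧ n ∈ G}

/-- the set of a function -/
def Ys (y : ℕ → ℕ) : Set ℕ := {n | y n = 1}

theorem meas (j : ℕ) (φ : OpForm (nat ∅)) : ∀ v : ℕ → ℕ,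
    MeasurableSet {q : (ℕ → ℕ) × (ℕ → ℕ) | φ.Holds (jn (Ys q.1) (GJ j q.2)) v} := by
  induction φ with
  | eq s t => intro v; exact MeasurableSet.const _
  | lt s t => intro v; exact MeasurableSet.const _
  | mem t X => exact absurd X.2 (Set.notMem_empty _)
  | memY t =>
    intro v
    have e1 : {q : (ℕ → ℕ) × (ℕ → ℕ) | (OpForm.memY t).Holds (jn (Ys q.1) (GJ j q.2)) v} =
        (⋃ n : ℕ, {q | t.val v = prn 0 n ∧ q.1 n = 1}) ∪ ⋃ n : ℕ, ⋃ i : ℕ, ⋃ k : ℕ, ⋃ m : ℕ,
          {q : (ℕ → ℕ) × (ℕ → ℕ) | (t.val v = prn 1 n ∧ n = prn (prn i k) m ∧ i < j) ∧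
            q.2 (prn i k) = m} := by
      ext q
      simp only [Set.mem_union, Set.mem_iUnion]
      constructor
      · rintro (⟨n, h1, h2⟩ | ⟨n, h1, i, k, m, h2, h3, h4⟩)
        · exact Or.inl ⟨n, h1, h2⟩
        · exact Or.inr ⟨n, i, k, m, ⟨h1, h2, h3⟩, h4⟩
      · rintro (⟨n, h1, h2⟩ | ⟨n, i, k, m, ⟨h1, h2, h3⟩, h4⟩)
        · exact Or.inl ⟨n, h1, h2⟩
        · exact Or.inr ⟨n, h1, i, k, m, h2, h3, h4⟩
    rw [e1]
    refine MeasurableSet.union (MeasurableSet.iUnion fun n => ?_) (MeasurableSet.iUnion fun n =>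
      MeasurableSet.iUnion fun i => MeasurableSet.iUnion fun k => MeasurableSet.iUnion fun m => ?_)
    · refine MeasurableSet.inter (MeasurableSet.const _) ?_
      exact measurableSet_eq_fun ((measurable_pi_apply n).comp measurable_fst) measurable_const
    · refine MeasurableSet.inter (MeasurableSet.const _) ?_
      exact measurableSet_eq_fun ((measurable_pi_apply (prn i k)).comp measurable_snd)
        measurable_const
  | neg φ ih => intro v; exact (ih v).compl
  | and φ ψ ih1 ih2 => intro v; exact (ih1 v).inter (ih2 v)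
  | all φ ih =>
    intro v
    have e1 : {q : (ℕ → ℕ) × (ℕ → ℕ) | (OpForm.all φ).Holds (jn (Ys q.1) (GJ j q.2)) v} =
        ⋂ a : ℕ, {q | φ.Holds (jn (Ys q.1) (GJ j q.2)) (cons a v)} := by
      ext q
      simp only [Set.mem_iInter]
      exact Iff.rfl
    rw [e1]
    exact MeasurableSet.iInter fun a => ih (cons a v)

/-- the properties of the closed condition for the formula `φ` at column `j` -/
structure CC (φ : OpForm (nat ∅)) (j : ℕ) (C : (ℕ → ℕ) → Prop) : Prop where
  closed : ∀ Z : ℕ → ℕ, (∀ n, ∃ Z', C Z' ∧ ∀ i, i < n → Z' i = Z i) → C Z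
  loc : ∀ Z Z' : ℕ → ℕ, (∀ i n, i ≤ j → Z (prn i n) = Z' (prn i n)) → C Z → C Z'
  sound : ∀ Z, C Z → φ.Holds (jn {n | Z (prn j (2 * n + 1)) = 1} (GJ j Z)) (fun _ => (0 : ℕ))
  complete : ∀ (Z : ℕ → ℕ) (Y : Set ℕ), φ.Holds (jn Y (GJ j Z)) (fun _ => (0 : ℕ)) →
    ∃ Z', (∀ i n, i < j → Z' (prn i n) = Z (prn i n)) ∧ C Z'

open Classical in
/-- restriction to the columns before `j` -/
noncomputable def res (j : ℕ) (Z : ℕ → ℕ) : ℕ → ℕ :=
  fun p => if ∃ i n, i < j ∧ p = prn i n then Z p else 0

theorem res_cont (j : ℕ) : Continuous (res j) := by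
  classical
  refine continuous_pi fun p => ?_
  unfold res
  by_cases h : ∃ i n, i < j ∧ p = prn i n
  · simp only [h, if_true]; exact continuous_apply p
  · simp only [h, if_false]; exact continuous_const

theorem GJ_res (j : ℕ) (Z : ℕ → ℕ) : GJ j (res j Z) = GJ j Z := by
  ext x
  constructor
  · rintro ⟨i, n, m, h1, h2, h3⟩
    refine ⟨i, n, m, h1, h2, ?_⟩
    rw [← h3]; unfold res; rw [if_pos ⟨i, n, h2, rfl⟩]
  · rintro ⟨i, n, m, h1, h2, h3⟩
    refine ⟨i, n, m, h1, h2, ?_⟩
    rw [← h3]; unfold res; rw [if_pos ⟨i, n, h2, rfl⟩]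

theorem exists_CC (φ : OpForm (nat ∅)) (j : ℕ) : ∃ C, CC φ j C := by
  classical
  have hA := (meas j φ (fun _ => (0 : ℕ))).analyticSet
  rw [MeasureTheory.AnalyticSet] at hA
  rcases hA with hA | ⟨f, hf, hfA⟩
  · refine ⟨fun _ => False, ?_, fun _ _ _ h => h, fun _ h => h.elim, fun Z Y h => ?_⟩
    · intro Z h
      obtain ⟨Z', h1, _⟩ := h 0
      exact h1
    · exfalso
      have : ((fun n => if n ∈ Y then 1 else 0 : ℕ → ℕ), Z) ∈
          {q : (ℕ → ℕ) × (ℕ → ℕ) | φ.Holds (jn (Ys q.1) (GJ j q.2)) (fun _ => (0 : ℕ))} := by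
        have e1 : Ys (fun n => if n ∈ Y then 1 else 0 : ℕ → ℕ) = Y := by
          ext n; by_cases h : n ∈ Y <;> simp [Ys, h]
        show φ.Holds (jn (Ys _) (GJ j Z)) _
        rw [e1]; exact h
      rw [hA] at this
      exact this
  · refine ⟨fun Z => f (fun n => Z (prn j (2 * n))) = ((fun n => Z (prn j (2 * n + 1))), res j Z),
      ?_, ?_, ?_, ?_⟩
    · intro Z h
      have hcl : IsClosed {Z : ℕ → ℕ | f (fun n => Z (prn j (2 * n))) =
          ((fun n => Z (prn j (2 * n + 1))), res j Z)} := by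
        refine isClosed_eq (hf.comp (continuous_pi fun n => continuous_apply _))
          ((continuous_pi fun n => continuous_apply _).prodMk (res_cont j))
      choose Z' h1 h2 using h
      have ht : Filter.Tendsto Z' Filter.atTop (nhds Z) := by
        rw [tendsto_pi_nhds]
        intro i
        refine tendsto_const_nhds.congr' ?_
        filter_upwards [Filter.eventually_gt_atTop i] with n hn
        exact (h2 n i hn).symm
      have hm := hcl.mem_of_tendsto ht (Filter.Eventually.of_forall h1)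
      exact hm
    · intro Z Z' h h1
      have e1 : (fun n => Z (prn j (2 * n))) = fun n => Z' (prn j (2 * n)) := by
        funext n; exact h _ _ le_rfl
      have e2 : (fun n => Z (prn j (2 * n + 1))) = fun n => Z' (prn j (2 * n + 1)) := by
        funext n; exact h _ _ le_rfl
      have e3 : res j Z = res j Z' := by
        funext p
        unfold res
        by_cases hp : ∃ i n, i < j ∧ p = prn i n
        · rw [if_pos hp, if_pos hp]
          obtain ⟨i, n, h2, rfl⟩ := hp
          exact h _ _ h2.le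
        · rw [if_neg hp, if_neg hp]
      show f (fun n => Z' (prn j (2 * n))) = ((fun n => Z' (prn j (2 * n + 1))), res j Z')
      rw [← e1, ← e2, ← e3]; exact h1
    · intro Z h
      have h1 : ((fun n => Z (prn j (2 * n + 1))), res j Z) ∈ Set.range f := ⟨_, h⟩
      rw [hfA] at h1
      have h2 : φ.Holds (jn (Ys (fun n => Z (prn j (2 * n + 1)))) (GJ j (res j Z)))
        (fun _ => (0 : ℕ)) := h1
      rw [GJ_res] at h2
      exact h2
    · intro Z Y h
      have h1 : ((fun n => if n ∈ Y then 1 else 0 : ℕ → ℕ), res j Z) ∈ Set.range f := by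
        rw [hfA]
        have e1 : Ys (fun n => if n ∈ Y then 1 else 0 : ℕ → ℕ) = Y := by
          ext n; by_cases h : n ∈ Y <;> simp [Ys, h]
        show φ.Holds (jn (Ys _) (GJ j (res j Z))) _
        rw [e1, GJ_res]; exact h
      obtain ⟨z, hz⟩ := h1
      have hne : ∀ i n m, i < j → prn i n ≠ prn j m := fun i n m hi he => by
        have := (prn_inj he).1
        omega
      set Z' : ℕ → ℕ := fun p => if h : ∃ n, p = prn j n then
        (if h.choose % 2 = 0 then z (h.choose / 2) else if h.choose / 2 ∈ Y then 1 else 0)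
        else Z p with hZ'
      have hev : ∀ n, Z' (prn j (2 * n)) = z n := by
        intro n
        have hex : ∃ m, prn j (2 * n) = prn j m := ⟨_, rfl⟩
        have hch : hex.choose = 2 * n := (prn_inj hex.choose_spec).2.symm
        simp only [hZ']
        rw [dif_pos hex, hch]
        simp
      have hod : ∀ n, Z' (prn j (2 * n + 1)) = if n ∈ Y then 1 else 0 := by
        intro n
        have hex : ∃ m, prn j (2 * n + 1) = prn j m := ⟨_, rfl⟩
        have hch : hex.choose = 2 * n + 1 := (prn_inj hex.choose_spec).2.symm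
        simp only [hZ']
        rw [dif_pos hex, hch]
        have h2 : (2 * n + 1) / 2 = n := by omega
        have h3 : ¬ (2 * n + 1) % 2 = 0 := by omega
        rw [h2, if_neg h3]
      have hoff : ∀ i n, i < j → Z' (prn i n) = Z (prn i n) := by
        intro i n hi
        simp only [hZ']
        rw [dif_neg]
        rintro ⟨m, hm⟩
        exact hne i n m hi hm
      refine ⟨Z', hoff, ?_⟩
      show f (fun n => Z' (prn j (2 * n))) = ((fun n => Z' (prn j (2 * n + 1))), res j Z')
      have e1 : (fun n => Z' (prn j (2 * n))) = z := funext hev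
      have e2 : (fun n => Z' (prn j (2 * n + 1))) = fun n => if n ∈ Y then 1 else 0 := funext hod
      have e3 : res j Z' = res j Z := by
        funext p
        unfold res
        by_cases hp : ∃ i n, i < j ∧ p = prn i n
        · rw [if_pos hp, if_pos hp]
          obtain ⟨i, n, h2, rfl⟩ := hp
          exact hoff _ _ h2
        · rw [if_neg hp, if_neg hp]
      rw [e1, e2, e3]; exact hz

end Pool.Agent.W941.BM
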