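import Mathlib
import Pool.Agent.W941.BM.Form

/-! The greedy construction. -/

namespace Pool.Agent.W941.BM

set_option linter.unusedSectionVars false
set_option linter.unusedVariables false

section greedy

variable (C : ℕ → (ℕ → ℕ) → Prop) (Z0 : (ℕ → ℕ) → Prop)

/-- `Z'` agrees with `Z` below `m` and satisfies the conditions chosen below `n` -/
def Wt (l : ℕ → ℕ) (n : ℕ) (Z : ℕ → ℕ) (m : ℕ) (Z' : ℕ → ℕ) : Prop :=
  (∀ i, i < m → Z' i = Z i) ∧ Z0 Z' ∧ ∀ j, j < n → l j = 1 → C j Z'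

/-- the result of the greedy construction -/
def Gd (Z l : ℕ → ℕ) : Prop :=
  (∀ n, ∃ Z', Wt C Z0 l n Z n Z') ∧
    ∀ n, n ≠ 0 → (∃ Z', Wt C Z0 l n Z n Z' ∧ C n Z') → l n = 1

open Classical in
noncomputable def step (n : ℕ) (s : (ℕ → ℕ) × (ℕ → ℕ)) : (ℕ → ℕ) × (ℕ → ℕ) :=
  if h : ∃ Z', Wt C Z0 s.2 n s.1 n Z' ∧ C n Z' then (h.choose, Function.update s.2 n 1)
  else (s.1, Function.update s.2 n 0)

noncomputable def st (Zs : ℕ → ℕ) : ℕ → (ℕ → ℕ) × (ℕ → ℕ)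
  | 0 => (Zs, fun _ => 0)
  | n + 1 => step C Z0 n (st Zs n)

theorem exists_gd {Zs : ℕ → ℕ} (hZs : Z0 Zs) : ∃ Z l, Gd C Z0 Z l := by
  classical
  set s := st C Z0 Zs with hs
  have hsucc : ∀ n, s (n + 1) = step C Z0 n (s n) := fun n => rfl
  have h1 : ∀ n, (∀ i, i < n → (s (n + 1)).1 i = (s n).1 i) ∧
      (∀ i, i ≠ n → (s (n + 1)).2 i = (s n).2 i) := by
    intro n
    rw [hsucc]
    unfold step
    by_cases h : ∃ Z', Wt C Z0 (s n).2 n (s n).1 n Z' ∧ C n Z'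
    · rw [dif_pos h]
      exact ⟨h.choose_spec.1.1, fun i hi => Function.update_of_ne hi _ _⟩
    · rw [dif_neg h]
      exact ⟨fun i hi => rfl, fun i hi => Function.update_of_ne hi _ _⟩
  have h2 : ∀ n, Z0 (s n).1 ∧ ∀ j, j < n → (s n).2 j = 1 → C j (s n).1 := by
    intro n
    induction n with
    | zero => exact ⟨hZs, fun j hj => absurd hj (Nat.not_lt_zero j)⟩
    | succ n ih =>
      rw [hsucc]
      unfold step
      by_cases h : ∃ Z', Wt C Z0 (s n).2 n (s n).1 n Z' ∧ C n Z'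
      · rw [dif_pos h]
        obtain ⟨⟨h3, h4, h5⟩, h6⟩ := h.choose_spec
        refine ⟨h4, fun j hj hj1 => ?_⟩
        rcases Nat.lt_succ_iff_lt_or_eq.1 hj with h7 | h7
        · simp only [Function.update_of_ne h7.ne] at hj1
          exact h5 j h7 hj1
        · rw [h7]; exact h6
      · rw [dif_neg h]
        refine ⟨ih.1, fun j hj hj1 => ?_⟩
        rcases Nat.lt_succ_iff_lt_or_eq.1 hj with h7 | h7
        · simp only [Function.update_of_ne h7.ne] at hj1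
          exact ih.2 j h7 hj1
        · rw [h7] at hj1
          simp at hj1
  have h3 : ∀ i n, i < n → (s n).1 i = (s (i + 1)).1 i ∧ (s n).2 i = (s (i + 1)).2 i := by
    intro i n
    induction n with
    | zero => intro h; exact absurd h (Nat.not_lt_zero _)
    | succ n ih =>
      intro h
      rcases Nat.lt_succ_iff_lt_or_eq.1 h with h4 | h4
      · rw [(h1 n).1 i h4, (h1 n).2 i h4.ne]
        exact ih h4
      · rw [h4]; exact ⟨rfl, rfl⟩
  refine ⟨fun i => (s (i + 1)).1 i, fun i => (s (i + 1)).2 i, fun n => ⟨(s n).1, ?_, (h2 n).1, ?_⟩,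
    fun n hn hex => ?_⟩
  · intro i hi; exact (h3 i n hi).1
  · intro j hj hj1
    exact (h2 n).2 j hj (by rw [(h3 j n hj).2]; exact hj1)
  · show (s (n + 1)).2 n = 1
    obtain ⟨Z', ⟨h4, h5, h6⟩, h7⟩ := hex
    have hc : ∃ Z', Wt C Z0 (s n).2 n (s n).1 n Z' ∧ C n Z' :=
      ⟨Z', ⟨fun i hi => by rw [h4 i hi]; exact (h3 i n hi).1.symm, h5, fun j hj hj1 =>
        h6 j hj (by
          show (s (j + 1)).2 j = 1
          rw [← (h3 j n hj).2]; exact hj1)⟩, h7⟩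
    rw [hsucc]
    unfold step
    rw [dif_pos hc]
    exact Function.update_self _ _ _

/-- the result is complete -/
theorem gd_complete {O : Set ℕ}
    (hcl : ∀ j, ∀ Z : ℕ → ℕ, (∀ n, ∃ Z', C j Z' ∧ ∀ i, i < n → Z' i = Z i) → C j Z)
    (hloc : ∀ j, ∀ Z Z' : ℕ → ℕ, (∀ i n, i ≤ j → Z (prn i n) = Z' (prn i n)) → C j Z → C j Z')
    (hZ0 : ∀ Z, Z0 Z ↔ ∀ x, (x ∈ O → Z (prn 0 x) = 1) ∧ (x ∉ O → Z (prn 0 x) = 0))
    {Z l : ℕ → ℕ} (h : Gd C Z0 Z l) :
    Z0 Z ∧ ∀ j, j ≠ 0 → (∃ Z', C j Z' ∧ ∀ i n, i < j → Z' (prn i n) = Z (prn i n)) → C j Z := by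
  classical
  obtain ⟨h1, h2⟩ := h
  have hZ : Z0 Z := by
    rw [hZ0]
    intro x
    obtain ⟨Z', h3, h4, _⟩ := h1 (prn 0 x + 1)
    have := (hZ0 Z').1 h4 x
    rw [h3 _ (Nat.lt_succ_self _)] at this
    exact this
  have hC : ∀ j, l j = 1 → C j Z := by
    intro j hj
    refine hcl j Z fun n => ?_
    obtain ⟨Z', h3, _, h5⟩ := h1 (max n (j + 1))
    exact ⟨Z', h5 j (lt_of_lt_of_le (Nat.lt_succ_self j) (le_max_right _ _)) hj,
      fun i hi => h3 i (lt_of_lt_of_le hi (le_max_left _ _))⟩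
  refine ⟨hZ, fun j hj ⟨Z', hC', hag⟩ => hC j (h2 j hj ?_)⟩
  set Z'' : ℕ → ℕ := fun p => if ∃ n, p = prn j n then Z' p else Z p with hZ''
  have hon : ∀ n, Z'' (prn j n) = Z' (prn j n) := by
    intro n
    simp only [hZ'']
    rw [if_pos ⟨n, rfl⟩]
  have hoff : ∀ i n, i ≠ j → Z'' (prn i n) = Z (prn i n) := by
    intro i n hi
    simp only [hZ'']
    rw [if_neg]
    rintro ⟨m, hm⟩
    exact hi (prn_inj hm).1
  refine ⟨Z'', ⟨fun i hi => ?_, ?_, fun i hi hi1 => ?_⟩, ?_⟩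
  · simp only [hZ'']
    rw [if_neg]
    rintro ⟨m, hm⟩
    have := le_prn j m
    omega
  · rw [hZ0]
    intro x
    rw [hoff 0 x (Ne.symm hj)]
    exact (hZ0 Z).1 hZ x
  · refine hloc i Z Z'' (fun a n ha => (hoff a n ?_).symm) (hC i hi1)
    omega
  · refine hloc j Z' Z'' (fun a n ha => ?_) hC'
    by_cases haj : a = j
    · rw [haj, hon]
    · rw [hoff a n haj, hag a n (lt_of_le_of_ne ha haj)]

end greedy

end Pool.Agent.W941.BM
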