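import Mathlib
import Pool.Agent.W941.BM.Zl

/-! The greedy construction inside a `β`-model of `Π¹₁` comprehension. -/

namespace Pool.Agent.W941.BM

open Pool.Agent.Helper617.RM Pool.Agent.Helper317.Atr Pool.Agent.W941.UL

set_option linter.unusedSectionVars false
set_option linter.unusedVariables false

theorem AY_memA {N : L2Structure.{0}} [IsModelRCA0 N] [Sig1 N] {g : Ctx N → N.M} (hg : AG g) :
    AY (fun v Y => g v ∈ Y) := by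
  refine AY.congr (R := fun v Y => ∃ c, c = g v ∧ c ∈ Y) ?_ fun v Y => by simp
  exact AY.ex (AY.and (AY.of_D0 (D0.eqA (AG.var 0) hg.tail)) (AY.memY (Tm.var 0)))

section mod

variable {S : Set (Set ℕ)} [IsModelRCA0 (nat S)] [Sig1 (nat S)]
variable {C : ℕ → (ℕ → ℕ) → Prop} {e : ℕ → ℕ → ℕ} {O : Set ℕ}

/-- codes of initial segments of solutions -/
def Th (C : ℕ → (ℕ → ℕ) → Prop) (e : ℕ → ℕ → ℕ) : Set ℕ :=
  {x | ∃ j w n, x = prn j (prn w n) ∧ ∃ Z', C j Z' ∧ ∀ i, i < n → Z' i = e w i}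

/-- the graph of `e` -/
def Eg (e : ℕ → ℕ → ℕ) : Set ℕ := {x | ∃ s i, x = prn (prn s i) (e s i)}

/-- the condition on column `0` -/
def ZO (O : Set ℕ) (Z : ℕ → ℕ) : Prop :=
  ∀ x, (x ∈ O → Z (prn 0 x) = 1) ∧ (x ∉ O → Z (prn 0 x) = 0)

theorem pr_nat (a b : ℕ) : pr (N := nat S) a b = prn a b := rfl

theorem e_A (hE : Eg e ∈ S) {g g' : Ctx (nat S) → (nat S).M} (hg : AG g) (hg' : AG g') :
    AG (N := nat S) (fun v => e (g v) (g' v)) := by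
  refine AG.op2 (N := nat S) (f := fun s i => e s i) ?_ hg hg'
  refine D0.congr (D0.mem (((Tm.var 0).pr (Tm.var 1)).pr (Tm.var 2)) hE) fun v => ?_
  constructor
  · rintro ⟨s, i, h⟩
    obtain ⟨h1, h2⟩ := pr_inj (N := nat S) h
    obtain ⟨h3, h4⟩ := pr_inj (N := nat S) h1
    rw [h2, h3, h4]
  · intro h
    exact ⟨_, _, by rw [h]; rfl⟩

/-- the condition `C j` for coded functions -/
def CN (S : Set (Set ℕ)) [IsModelRCA0 (nat S)] (C : ℕ → (ℕ → ℕ) → Prop) (e : ℕ → ℕ → ℕ)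
    (j : (nat S).M) (Y : Set (nat S).M) : Prop :=
  ∀ n w : (nat S).M, (∀ i : (nat S).M, i < n → pr i (e w i) ∈ Y) → pr j (pr w n) ∈ Th C e

theorem CN_AY (hE : Eg e ∈ S) (hTh : Th C e ∈ S) {g : Ctx (nat S) → (nat S).M} (hg : Tm g) :
    AY (N := nat S) (fun v Y => CN S C e (g v) Y) := by
  refine AY.all (AY.all (AY.imp (AY.all (AY.imp (AY.of_D0 ?_) ?_)) (AY.of_D0 ?_)))
  · exact D0.lt (Tm.var 0) (Tm.var 2)
  · exact AY_memA (AG.pr (AG.var 0) (e_A hE (AG.var 1) (AG.var 0)))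
  · exact D0.mem (hg.tail.tail.pr ((Tm.var 0).pr (Tm.var 1))) hTh

theorem CN_iff (hcl : ∀ j, ∀ Z : ℕ → ℕ, (∀ n, ∃ Z', C j Z' ∧ ∀ i, i < n → Z' i = Z i) → C j Z)
    (hget : ∀ (g : ℕ → ℕ) n, ∃ s, ∀ i, i < n → e s i = g i) {Y : Set ℕ} {Z : ℕ → ℕ}
    (hY : ∀ i c, prn i c ∈ Y ↔ c = Z i) (j : ℕ) : CN S C e j Y ↔ C j Z := by
  constructor
  · intro h
    refine hcl j Z fun n => ?_
    obtain ⟨w, hw⟩ := hget Z n
    obtain ⟨j', w', n', h1, Z', h2, h3⟩ := h n w (fun i hi => (hY _ _).2 (hw i hi))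
    obtain ⟨rfl, h4⟩ := prn_inj h1
    obtain ⟨rfl, rfl⟩ := prn_inj h4
    exact ⟨Z', h2, fun i hi => by rw [h3 i hi, hw i hi]⟩
  · intro h n w hw
    exact ⟨j, w, n, rfl, Z, h, fun i hi => ((hY _ _).1 (hw i hi)).symm⟩

/-- the condition that defines `H` -/
def BB (S : Set (Set ℕ)) [IsModelRCA0 (nat S)] (C : ℕ → (ℕ → ℕ) → Prop) (e : ℕ → ℕ → ℕ)
    (O : Set ℕ) (x : (nat S).M) (Y : Set (nat S).M) : Prop :=
  ∃ u n w m : (nat S).M, x = pr (pr u n) (pr w m) ∧ (Fn Y ∧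
    ((∀ i : (nat S).M, i < m → pr i (e w i) ∈ Y) ∧
    ((∀ x' : (nat S).M, (x' ∈ O → pr (pr 0 x') 1 ∈ Y) ∧ (¬ x' ∈ O → pr (pr 0 x') 0 ∈ Y)) ∧
    ∀ j : (nat S).M, j < n → e u j = (1 : (nat S).M) → CN S C e j Y)))

theorem BB_AY (hE : Eg e ∈ S) (hTh : Th C e ∈ S) (hO : O ∈ S) :
    AY (N := nat S) (fun v Y => BB S C e O (v 0) Y) := by
  refine AY.ex (AY.ex (AY.ex (AY.ex (AY.and (AY.of_D0 ?_) (AY.and (Fn_AY.comp CM.id) (AY.and
    (AY.all (AY.imp (AY.of_D0 ?_) ?_)) (AY.and (AY.all (AY.and (AY.imp (AY.of_D0 ?_) (AY.memY ?_))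
    (AY.imp (AY.of_D0 ?_) (AY.memY ?_)))) (AY.all (AY.imp (AY.of_D0 ?_) (AY.imp (AY.of_D0 ?_)
      ?_))))))))))
  · exact D0.eq (Tm.var 4) (((Tm.var 3).pr (Tm.var 2)).pr ((Tm.var 1).pr (Tm.var 0)))
  · exact D0.lt (Tm.var 0) (Tm.var 1)
  · exact AY_memA (AG.pr (AG.var 0) (e_A hE (AG.var 2) (AG.var 0)))
  · exact D0.mem (Tm.var 0) hO
  · exact (Tm.zero.pr (Tm.var 0)).pr Tm.one
  · exact (D0.mem (Tm.var 0) hO).not
  · exact (Tm.zero.pr (Tm.var 0)).pr Tm.zero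
  · exact D0.lt (Tm.var 0) (Tm.var 3)
  · exact D0.eqA (e_A hE (AG.var 4) (AG.var 0)) (AG.const _)
  · exact CN_AY hE hTh (Tm.var 0)

theorem fn_ex {Y : Set ℕ} (hY : Fn (N := nat S) Y) : ∃ Z : ℕ → ℕ, ∀ i c, prn i c ∈ Y ↔ c = Z i := by
  obtain ⟨h1, h2⟩ := hY
  choose Z hZ using h1
  exact ⟨Z, fun i c => ⟨fun h => h2 _ _ _ h (hZ i), fun h => by rw [h]; exact hZ i⟩⟩

theorem fn_of {Y : Set ℕ} {Z : ℕ → ℕ} (h : ∀ i c, prn i c ∈ Y ↔ c = Z i) : Fn (N := nat S) Y :=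
  ⟨fun i => ⟨Z i, (h i _).2 rfl⟩, fun i a b ha hb => ((h i a).1 ha).trans ((h i b).1 hb).symm⟩

theorem mod_main (hβ : IsBeta (nat S)) (hPi : Pi11Comp (nat S))
    (hE : Eg e ∈ S) (hTh : Th C e ∈ S) (hO : O ∈ S)
    (hget : ∀ (g : ℕ → ℕ) n, ∃ s, ∀ i, i < n → e s i = g i)
    (hcl : ∀ j, ∀ Z : ℕ → ℕ, (∀ n, ∃ Z', C j Z' ∧ ∀ i, i < n → Z' i = Z i) → C j Z)
    (hloc : ∀ j, ∀ Z Z' : ℕ → ℕ, (∀ i n, i ≤ j → Z (prn i n) = Z' (prn i n)) → C j Z → C j Z') :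
    ∃ Z : ℕ → ℕ, {p | ∃ i, p = prn i (Z i)} ∈ S ∧ ZO O Z ∧ ∀ j, j ≠ 0 →
      (∃ Z', C j Z' ∧ ∀ i n, i < j → Z' (prn i n) = Z (prn i n)) → C j Z := by
  classical
  set H : Set ℕ := {x | ∃ Y ∈ S, BB S C e O x Y} with hH
  have hHS : H ∈ S := by
    obtain ⟨φ, hφ⟩ := (BB_AY hE hTh hO).not
    have h1 := hPi φ (fun _ => (0 : ℕ))
    have h2 : D0 (N := nat S) (fun v => ¬ v 0 ∈ {n | ∀ Y ∈ (nat S).Sets, φ.Holds Y
      (cons n fun _ => (0 : ℕ))}) := (D0.mem (Tm.var 0) h1).not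
    have h3 := comp_D0 (P := fun x => ¬ x ∈ {n | ∀ Y ∈ (nat S).Sets, φ.Holds Y
      (cons n fun _ => (0 : ℕ))}) h2
    have e1 : H = {x : ℕ | ¬ x ∈ {n : ℕ | ∀ Y ∈ (nat S).Sets, φ.Holds Y
        (cons n fun _ => (0 : ℕ))}} := by
      refine Set.ext fun x => ?_
      show (∃ Y ∈ S, BB S C e O x Y) ↔ ¬ ∀ Y ∈ S, φ.Holds Y (cons x fun _ => (0 : ℕ))
      push Not
      refine exists_congr fun Y => and_congr_right fun _ => ?_
      have h4 := hφ (cons (x : (nat S).M) fun _ => (0 : ℕ)) Y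
      exact (not_not (a := BB S C e O x Y)).symm.trans (not_congr h4.symm)
    rw [e1]
    exact h3
  have hHiff : ∀ u n w m, prn (prn u n) (prn w m) ∈ H ↔ ∃ Z', (∀ i, i < m → Z' i = e w i) ∧
      ZO O Z' ∧ ∀ j, j < n → e u j = 1 → C j Z' := by
    intro u n w m
    constructor
    · rintro ⟨Y, hY, u', n', w', m', h1, h2, h3, h4, h5⟩
      obtain ⟨h6, h7⟩ := prn_inj h1
      obtain ⟨rfl, rfl⟩ := prn_inj h6
      obtain ⟨rfl, rfl⟩ := prn_inj h7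
      obtain ⟨Z, hZ⟩ := fn_ex h2
      refine ⟨Z, fun i hi => ((hZ _ _).1 (h3 i hi)).symm, fun x => ⟨fun hx => ?_, fun hx => ?_⟩,
        fun j hj hj1 => (CN_iff hcl hget hZ j).1 (h5 j hj hj1)⟩
      · exact ((hZ _ _).1 ((h4 x).1 hx)).symm
      · exact ((hZ _ _).1 ((h4 x).2 hx)).symm
    · rintro ⟨Z, h1, h2, h3⟩
      have hY : ∀ i c, prn i c ∈ {p | ∃ i, p = prn i (Z i)} ↔ c = Z i := by
        intro i c
        constructor
        · rintro ⟨i', h⟩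
          obtain ⟨rfl, rfl⟩ := prn_inj h
          rfl
        · rintro rfl; exact ⟨i, rfl⟩
      obtain ⟨Y, hYS, hY'⟩ := hβ.ay (BB_AY hE hTh hO) (cons (prn (prn u n) (prn w m))
        fun _ => (0 : ℕ)) ⟨{p | ∃ i, p = prn i (Z i)}, u, n, w, m, rfl, fn_of hY,
          fun i hi => (hY _ _).2 (h1 i hi).symm,
          fun x => ⟨fun hx => (hY _ _).2 ((h2 x).1 hx).symm,
            fun hx => (hY _ _).2 ((h2 x).2 hx).symm⟩,
          fun j hj hj1 => (CN_iff hcl hget hY j).2 (h3 j hj hj1)⟩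
      exact ⟨Y, hYS, hY'⟩
  -- the arithmetical condition on the pair
  set Q : Set (nat S).M → Prop := fun Y =>
    ((∀ i : (nat S).M, ∃ c : (nat S).M, pr 0 (pr i c) ∈ Y) ∧
      (∀ i a b : (nat S).M, pr 0 (pr i a) ∈ Y → pr 0 (pr i b) ∈ Y → a = b)) ∧
    (((∀ i : (nat S).M, ∃ c : (nat S).M, pr 1 (pr i c) ∈ Y) ∧
      (∀ i a b : (nat S).M, pr 1 (pr i a) ∈ Y → pr 1 (pr i b) ∈ Y → a = b)) ∧
    ((∀ n : (nat S).M, ∃ u w : (nat S).M, (∀ i : (nat S).M, i < n → pr 1 (pr i (e u i)) ∈ Y) ∧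
      ((∀ i : (nat S).M, i < n → pr 0 (pr i (e w i)) ∈ Y) ∧ pr (pr u n) (pr w n) ∈ H)) ∧
    ∀ n : (nat S).M, ¬ n = 0 → ∀ u w : (nat S).M,
      (∀ i : (nat S).M, i < n → pr 1 (pr i (e u i)) ∈ Y) → e u n = (1 : (nat S).M) →
      (∀ i : (nat S).M, i < n → pr 0 (pr i (e w i)) ∈ Y) → pr (pr u (n + 1)) (pr w n) ∈ H →
        pr 1 (pr n 1) ∈ Y)) with hQ
  have hQAY : AY (N := nat S) (fun _ Y => Q Y) := by
    refine AY.and (AY.and (AY.all (AY.ex (AY.memY ?_))) (AY.all (AY.all (AY.all (AY.imp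
      (AY.memY ?_) (AY.imp (AY.memY ?_) (AY.of_D0 ?_))))))) (AY.and (AY.and (AY.all (AY.ex
      (AY.memY ?_))) (AY.all (AY.all (AY.all (AY.imp (AY.memY ?_) (AY.imp (AY.memY ?_)
      (AY.of_D0 ?_))))))) (AY.and (AY.all (AY.ex (AY.ex (AY.and (AY.all (AY.imp (AY.of_D0 ?_)
      ?_)) (AY.and (AY.all (AY.imp (AY.of_D0 ?_) ?_)) (AY.of_D0 ?_)))))) (AY.all (AY.imp
      (AY.of_D0 ?_) (AY.all (AY.all (AY.imp (AY.all (AY.imp (AY.of_D0 ?_) ?_)) (AY.imp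
      (AY.of_D0 ?_) (AY.imp (AY.all (AY.imp (AY.of_D0 ?_) ?_)) (AY.imp (AY.of_D0 ?_)
      (AY.memY ?_)))))))))))
    · exact Tm.zero.pr ((Tm.var 1).pr (Tm.var 0))
    · exact Tm.zero.pr ((Tm.var 2).pr (Tm.var 1))
    · exact Tm.zero.pr ((Tm.var 2).pr (Tm.var 0))
    · exact D0.eq (Tm.var 1) (Tm.var 0)
    · exact Tm.one.pr ((Tm.var 1).pr (Tm.var 0))
    · exact Tm.one.pr ((Tm.var 2).pr (Tm.var 1))
    · exact Tm.one.pr ((Tm.var 2).pr (Tm.var 0))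
    · exact D0.eq (Tm.var 1) (Tm.var 0)
    · exact D0.lt (Tm.var 0) (Tm.var 3)
    · exact AY_memA (AG.pr (AG.const _) (AG.pr (AG.var 0) (e_A hE (AG.var 2) (AG.var 0))))
    · exact D0.lt (Tm.var 0) (Tm.var 3)
    · exact AY_memA (AG.pr (AG.const _) (AG.pr (AG.var 0) (e_A hE (AG.var 1) (AG.var 0))))
    · exact D0.mem (((Tm.var 1).pr (Tm.var 2)).pr ((Tm.var 0).pr (Tm.var 2))) hHS
    · exact (D0.eq (Tm.var 0) Tm.zero).not
    · exact D0.lt (Tm.var 0) (Tm.var 3)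
    · exact AY_memA (AG.pr (AG.const _) (AG.pr (AG.var 0) (e_A hE (AG.var 2) (AG.var 0))))
    · exact D0.eqA (e_A hE (AG.var 1) (AG.var 2)) (AG.const _)
    · exact D0.lt (Tm.var 0) (Tm.var 3)
    · exact AY_memA (AG.pr (AG.const _) (AG.pr (AG.var 0) (e_A hE (AG.var 1) (AG.var 0))))
    · exact D0.mem (((Tm.var 1).pr ((Tm.var 2).add Tm.one)).pr ((Tm.var 0).pr (Tm.var 2))) hHS
    · exact Tm.one.pr ((Tm.var 2).pr Tm.one)
  -- a real solution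
  have hZs : ∃ Zs, ZO O Zs := by
    refine ⟨fun p => if ∃ x, p = prn 0 x ∧ x ∈ O then 1 else 0, fun x => ⟨fun hx => ?_,
      fun hx => ?_⟩⟩
    · exact if_pos ⟨x, rfl, hx⟩
    · refine if_neg ?_
      rintro ⟨x', h1, h2⟩
      rw [(prn_inj h1).2] at hx
      exact hx h2
  obtain ⟨Zs, hZs⟩ := hZs
  obtain ⟨Zr, lr, hr1, hr2⟩ := exists_gd C (ZO O) hZs
  have hpr : ∀ Y' : Set ℕ, (∀ i c, prn 0 (prn i c) ∈ Y' ↔ c = Zr i) →
      (∀ i c, prn 1 (prn i c) ∈ Y' ↔ c = lr i) → Q Y' := by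
    intro Y' h0 h1
    refine ⟨⟨fun i => ⟨Zr i, (h0 _ _).2 rfl⟩, fun i a b ha hb =>
      ((h0 _ _).1 ha).trans ((h0 _ _).1 hb).symm⟩, ⟨fun i => ⟨lr i, (h1 _ _).2 rfl⟩,
      fun i a b ha hb => ((h1 _ _).1 ha).trans ((h1 _ _).1 hb).symm⟩, fun n => ?_,
      fun n hn u w hu hun hw hHm => ?_⟩
    · obtain ⟨u, hu⟩ := hget lr n
      obtain ⟨w, hw⟩ := hget Zr n
      obtain ⟨Z', h2, h3, h4⟩ := hr1 n
      refine ⟨u, w, fun i hi => (h1 _ _).2 (hu i hi), fun i hi => (h0 _ _).2 (hw i hi), ?_⟩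
      refine (hHiff u n w n).2 ⟨Z', fun i hi => by rw [h2 i hi, hw i hi], h3, fun j hj hj1 =>
        h4 j hj (by rw [← hu j hj]; exact hj1)⟩
    · obtain ⟨Z', h2, h3, h4⟩ := (hHiff u (Nat.succ n) w n).1 hHm
      refine (h1 _ _).2 (hr2 n hn ⟨Z', ⟨fun i hi => ?_, h3, fun j hj hj1 => ?_⟩, ?_⟩).symm
      · rw [h2 i hi]; exact (h0 _ _).1 (hw i hi)
      · exact h4 j (Nat.lt_succ_of_lt hj) (by rw [(h1 _ _).1 (hu j hj)]; exact hj1)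
      · exact h4 n (Nat.lt_succ_self n) hun
  obtain ⟨Y, hYS, hQY⟩ := hβ.ay hQAY (fun _ => (0 : ℕ))
    ⟨{x | (∃ i, x = prn 0 (prn i (Zr i))) ∨ ∃ i, x = prn 1 (prn i (lr i))}, hpr _ (by
      intro i c
      constructor
      · rintro (⟨i', h⟩ | ⟨i', h⟩)
        · obtain ⟨rfl, rfl⟩ := prn_inj (prn_inj h).2
          rfl
        · exact absurd (prn_inj h).1 (by decide)
      · rintro rfl; exact Or.inl ⟨i, rfl⟩) (by
      intro i c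
      constructor
      · rintro (⟨i', h⟩ | ⟨i', h⟩)
        · exact absurd (prn_inj h).1 (by decide)
        · obtain ⟨rfl, rfl⟩ := prn_inj (prn_inj h).2
          rfl
      · rintro rfl; exact Or.inr ⟨i, rfl⟩)⟩
  obtain ⟨⟨h1, h2⟩, ⟨h3, h4⟩, h5, h6⟩ := hQY
  choose Z hZ using h1
  choose l hl using h3
  have hZ' : ∀ i c : ℕ, prn 0 (prn i c) ∈ Y ↔ c = Z i := fun i c =>
    ⟨fun h => h2 _ _ _ h (hZ i), fun h => by rw [h]; exact hZ i⟩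
  have hl' : ∀ i c : ℕ, prn 1 (prn i c) ∈ Y ↔ c = l i := fun i c =>
    ⟨fun h => h4 _ _ _ h (hl i), fun h => by rw [h]; exact hl i⟩
  have hGd : Gd C (ZO O) Z l := by
    refine ⟨fun n => ?_, fun n hn hex => ?_⟩
    · obtain ⟨u, w, h7, h8, h9⟩ := h5 n
      obtain ⟨Z', h10, h11, h12⟩ := (hHiff u n w n).1 h9
      refine ⟨Z', fun i hi => ?_, h11, fun j hj hj1 => h12 j hj ?_⟩
      · rw [h10 i hi]; exact (hZ' _ _).1 (h8 i hi)
      · rw [(hl' _ _).1 (h7 j hj)]; exact hj1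
    · obtain ⟨Z', ⟨h7, h8, h9⟩, h10⟩ := hex
      obtain ⟨u, hu⟩ := hget (fun i => if i < n then l i else 1) (n + 1)
      obtain ⟨w, hw⟩ := hget Z n
      have hun : e u n = 1 := by rw [hu n (Nat.lt_succ_self n)]; simp
      have hui : ∀ i, i < n → e u i = l i := fun i hi => by
        rw [hu i (Nat.lt_succ_of_lt hi)]; exact if_pos hi
      have := h6 n hn u w (fun i hi => (hl' _ _).2 (hui i hi)) hun
        (fun i hi => (hZ' _ _).2 (hw i hi)) ((hHiff u (n + 1) w n).2 ⟨Z', fun i hi => by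
          rw [h7 i hi, hw i hi], h8, fun j hj hj1 => by
          rcases Nat.lt_succ_iff_lt_or_eq.1 hj with h11 | h11
          · exact h9 j h11 (by rw [← hui j h11]; exact hj1)
          · rw [h11]; exact h10⟩)
      exact ((hl' _ _).1 this).symm
  obtain ⟨h7, h8⟩ := gd_complete C (ZO O) (O := O) hcl hloc (fun Z => Iff.rfl) hGd
  refine ⟨Z, ?_, h7, h8⟩
  have h9 : D0 (N := nat S) (fun v => ∃ i c, v 0 = pr i c ∧ pr 0 (pr i c) ∈ Y) :=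
    D0.ex (D0.ex (D0.and (D0.eq (Tm.var 2) ((Tm.var 1).pr (Tm.var 0)))
      (D0.mem (Tm.zero.pr ((Tm.var 1).pr (Tm.var 0))) hYS)))
  have h10 := comp_D0 (P := fun x => ∃ i c, x = pr i c ∧ pr 0 (pr i c) ∈ Y) h9
  have e1 : ({p | ∃ i, p = prn i (Z i)} : Set ℕ) =
      {x : ℕ | ∃ i c : (nat S).M, x = pr i c ∧ pr 0 (pr i c) ∈ Y} := by
    refine Set.ext fun p => ?_
    constructor
    · rintro ⟨i, rfl⟩
      exact ⟨i, Z i, rfl, hZ i⟩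
    · rintro ⟨i, c, hp, hc⟩
      refine ⟨i, ?_⟩
      rw [hp, (hZ' _ _).1 hc]
      rfl
  rw [e1]
  exact h10

end mod

end Pool.Agent.W941.BM
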