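import Mathlib
import Pool.Agent.W941.BM.Form

/-! The family of sets arithmetical in finitely many columns. -/

namespace Pool.Agent.W941.BM

open Pool.Agent.Helper617.RM Pool.Agent.Helper317.Atr Pool.Agent.W941.UL

set_option linter.unusedSectionVars false
set_option linter.unusedVariables false

/-- the term for a pair -/
def ptm {N : L2Structure.{0}} (s t : Term N) : Term N := .add (.mul (.add s t) (.add s t)) s

/-- the sets arithmetical in finitely many columns of `Z` -/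
def Sf (Z : ℕ → ℕ) : Set (Set ℕ) := {X | ∃ k, ∃ ψ : OpForm (nat ∅), ∀ j, k ≤ j → ∀ n : ℕ,
  (n ∈ X ↔ ψ.Holds (GJ j Z) (cons n fun _ => (0 : ℕ)))}

/-- the set coded by column `j` -/
def Yj (Z : ℕ → ℕ) (j : ℕ) : Set ℕ := {n | Z (prn j (2 * n + 1)) = 1}

theorem tm_tr {S : Set (Set ℕ)} (t : Term (nat S)) :
    ∃ t' : Term (nat ∅), ∀ v : ℕ → ℕ, t'.val v = t.val v := by
  induction t with
  | var i => exact ⟨.var i, fun _ => rfl⟩
  | const a => exact ⟨.const a, fun _ => rfl⟩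
  | zero => exact ⟨.zero, fun _ => rfl⟩
  | one => exact ⟨.one, fun _ => rfl⟩
  | add s t ih1 ih2 =>
    obtain ⟨s', h1⟩ := ih1
    obtain ⟨t', h2⟩ := ih2
    exact ⟨.add s' t', fun v => congrArg₂ (fun a b : ℕ => a + b) (h1 v) (h2 v)⟩
  | mul s t ih1 ih2 =>
    obtain ⟨s', h1⟩ := ih1
    obtain ⟨t', h2⟩ := ih2
    exact ⟨.mul s' t', fun v => congrArg₂ (fun a b : ℕ => a * b) (h1 v) (h2 v)⟩

theorem mem_GJ {j : ℕ} {Z : ℕ → ℕ} {i n m : ℕ} :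
    prn (prn i n) m ∈ GJ j Z ↔ i < j ∧ Z (prn i n) = m := by
  constructor
  · rintro ⟨i', n', m', h1, h2, h3⟩
    obtain ⟨h4, rfl⟩ := prn_inj h1
    obtain ⟨rfl, rfl⟩ := prn_inj h4
    exact ⟨h2, h3⟩
  · rintro ⟨h2, h3⟩
    exact ⟨i, n, m, rfl, h2, h3⟩

theorem jn0 {Y G : Set ℕ} {n : ℕ} : prn 0 n ∈ jn Y G ↔ n ∈ Y := by
  constructor
  · rintro (⟨m, h, h'⟩ | ⟨m, h, h'⟩)
    · rw [(prn_inj h).2]; exact h'
    · exact absurd (prn_inj h).1 (by decide)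
  · intro h; exact Or.inl ⟨n, rfl, h⟩

theorem jn1 {Y G : Set ℕ} {n : ℕ} : prn 1 n ∈ jn Y G ↔ n ∈ G := by
  constructor
  · rintro (⟨m, h, h'⟩ | ⟨m, h, h'⟩)
    · exact absurd (prn_inj h).1 (by decide)
    · rw [(prn_inj h).2]; exact h'
  · intro h; exact Or.inr ⟨n, rfl, h⟩

theorem tr (Z : ℕ → ℕ) (θ : OpForm (nat (Sf Z))) : ∃ k, ∃ θ' : OpForm (nat ∅), ∀ j, k ≤ j →
    ∀ (Y : Set ℕ) (v : ℕ → ℕ), (θ.Holds Y v ↔ θ'.Holds (jn Y (GJ j Z)) v) := by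
  induction θ with
  | eq s t =>
    obtain ⟨s', h1⟩ := tm_tr s
    obtain ⟨t', h2⟩ := tm_tr t
    refine ⟨0, .eq s' t', fun j _ Y v => ?_⟩
    show s.val v = t.val v ↔ s'.val v = t'.val v
    rw [h1, h2]
    exact Iff.rfl
  | lt s t =>
    obtain ⟨s', h1⟩ := tm_tr s
    obtain ⟨t', h2⟩ := tm_tr t
    refine ⟨0, .lt s' t', fun j _ Y v => ?_⟩
    exact Iff.of_eq (congrArg₂ (fun a b : ℕ => a < b) (h1 v).symm (h2 v).symm)
  | mem t X =>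
    obtain ⟨t', h2⟩ := tm_tr t
    obtain ⟨k, ψ, hψ⟩ := X.2
    obtain ⟨θ', hθ'⟩ := AY_subst (N := nat ∅) ψ (fun _ p J => prn 1 p ∈ J)
      ⟨.memY (ptm .one (.var 0)), fun v Y => Iff.rfl⟩ (fun v => cons (t'.val v) fun _ => (0 : ℕ))
      (CM.cons ⟨t', fun _ => rfl⟩ fun i => ⟨.const (0 : ℕ), fun _ => rfl⟩)
    refine ⟨k, θ', fun j hj Y v => ?_⟩
    have h3 : ({p : ℕ | prn 1 p ∈ jn Y (GJ j Z)} : Set ℕ) = GJ j Z := by
      ext p; exact jn1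
    have h4 := hθ' v (jn Y (GJ j Z))
    refine Iff.trans ?_ h4.symm
    have key : ∀ (A : Set ℕ) (a b : ℕ), A = GJ j Z → b = a →
        (a ∈ (X.1 : Set ℕ) ↔ ψ.Holds A (cons b fun _ => (0 : ℕ))) := by
      rintro _ a _ rfl rfl
      exact hψ j hj _
    exact key _ (t.val v) (t'.val v) h3 (h2 v)
  | memY t =>
    obtain ⟨t', h2⟩ := tm_tr t
    refine ⟨0, .memY (ptm .zero t'), fun j _ Y v => ?_⟩
    have h3 : ∀ a b : ℕ, b = a → (a ∈ Y ↔ prn 0 b ∈ jn Y (GJ j Z)) := by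
      rintro a _ rfl
      exact jn0.symm
    exact h3 (t.val v) (t'.val v) (h2 v)
  | neg φ ih =>
    obtain ⟨k, φ', h⟩ := ih
    exact ⟨k, .neg φ', fun j hj Y v => not_congr (h j hj Y v)⟩
  | and φ ψ ih1 ih2 =>
    obtain ⟨k, φ', h⟩ := ih1
    obtain ⟨k', ψ', h'⟩ := ih2
    exact ⟨max k k', .and φ' ψ', fun j hj Y v => and_congr
      (h j (le_of_max_le_left hj) Y v) (h' j (le_of_max_le_right hj) Y v)⟩
  | all φ ih =>
    obtain ⟨k, φ', h⟩ := ih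
    exact ⟨k, .all φ', fun j hj Y v => forall_congr' fun a => h j hj Y (cons a v)⟩

theorem Yj_mem (Z : ℕ → ℕ) (j : ℕ) : Yj Z j ∈ Sf Z := by
  refine ⟨j + 1, .memY (ptm (ptm (.const j) (.add (.add (.var 0) (.var 0)) .one)) .one),
    fun j' hj' n => ?_⟩
  show Z (prn j (2 * n + 1)) = 1 ↔ prn (prn j (n + n + 1)) 1 ∈ GJ j' Z
  rw [mem_GJ, two_mul]
  exact ⟨fun h => ⟨hj', h⟩, fun h => h.2⟩

section beta

variable {Z : ℕ → ℕ} {τ : ℕ → OpForm (nat ∅)} {C : ℕ → (ℕ → ℕ) → Prop}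
  (hτ : ∀ φ k, ∃ j, k ≤ j ∧ τ j = φ) (hC : ∀ j, CC (τ j) j (C j))
  (hZ : ∀ j, j ≠ 0 → (∃ Z', C j Z' ∧ ∀ i n, i < j → Z' (prn i n) = Z (prn i n)) → C j Z)

include hτ hC hZ

theorem sub_beta' (θ : OpForm (nat (Sf Z))) (v : ℕ → ℕ) (hY : ∃ Y : Set ℕ, θ.Holds Y v) :
    ∃ j, θ.Holds (Yj Z j) v := by
  obtain ⟨k, θ', h⟩ := tr Z θ
  obtain ⟨Y, hY⟩ := hY
  have hcl : ∀ (J : Set ℕ), (θ'.subst fun i => .const (v i)).Holds J (fun _ => (0 : ℕ)) ↔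
      θ'.Holds J v := fun J => OpForm.holds_subst θ' J _ _
  obtain ⟨j, hj, hτj⟩ := hτ (θ'.subst fun i => .const (v i)) (max k 1)
  have hCj := hC j
  rw [hτj] at hCj
  obtain ⟨Z', h1, h2⟩ := hCj.complete Z Y ((hcl _).2 ((h j (le_of_max_le_left hj) Y v).1 hY))
  have h3 : C j Z := hZ j (by
    have := le_of_max_le_right hj
    omega) ⟨Z', h2, h1⟩
  exact ⟨j, (h j (le_of_max_le_left hj) _ v).2 ((hcl _).1 (hCj.sound Z h3))⟩

theorem sub_beta : IsBeta (nat (Sf Z)) := by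
  intro θ v hY
  obtain ⟨j, hj⟩ := sub_beta' hτ hC hZ θ v hY
  exact ⟨Yj Z j, Yj_mem Z j, hj⟩

theorem sub_eq {X : Set ℕ} (hX : X ∈ Sf Z) : ∃ j, X = Yj Z j := by
  have hAY : AY (N := nat (Sf Z)) (fun v Y => ∀ n, (n ∈ Y ↔ n ∈ X)) := by
    refine AY.all (AY.iff (AY.memY (Tm.var 0)) ?_)
    exact ⟨.mem (.var 0) ⟨X, hX⟩, fun v Y => Iff.rfl⟩
  obtain ⟨φ, hφ⟩ := hAY
  obtain ⟨j, hj⟩ := sub_beta' hτ hC hZ φ (fun _ => (0 : ℕ)) ⟨X, (hφ _ _).2 fun n => Iff.rfl⟩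
  refine ⟨j, ?_⟩
  have := (hφ _ _).1 hj
  ext n
  exact (this n).symm

end beta

/-! ### ranks -/

/-- the binary relation coded by a set -/
def rl (X : Set ℕ) (a b : ℕ) : Prop := prn a b ∈ X

/-- the ranks of the well-founded relations in the family -/
def RK (S : Set (Set ℕ)) : Set Ordinal.{0} :=
  {o | ∃ X ∈ S, ∃ (h : IsWellFounded ℕ (rl X)) (x : ℕ), o = @IsWellFounded.rank ℕ (rl X) h x}

/-- the disjoint union of the well-founded relations in a family, with a top element -/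
def Un (Y : ℕ → Set ℕ) : Set ℕ :=
  {x | (∃ j a b, x = prn (prn j a + 1) (prn j b + 1) ∧ WellFounded (rl (Y j)) ∧ prn a b ∈ Y j) ∨
    ∃ z, x = prn (z + 1) 0}

theorem rl_Un {Y : ℕ → Set ℕ} {x y : ℕ} : rl (Un Y) x y ↔ (∃ j a b, x = prn j a + 1 ∧
    y = prn j b + 1 ∧ WellFounded (rl (Y j)) ∧ prn a b ∈ Y j) ∨ (∃ z, x = z + 1) ∧ y = 0 := by
  constructor
  · rintro (⟨j, a, b, h, h1, h2⟩ | ⟨z, h⟩)
    · obtain ⟨h3, h4⟩ := prn_inj h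
      exact Or.inl ⟨j, a, b, h3, h4, h1, h2⟩
    · obtain ⟨h3, h4⟩ := prn_inj h
      exact Or.inr ⟨⟨z, h3⟩, h4⟩
  · rintro (⟨j, a, b, h3, h4, h1, h2⟩ | ⟨⟨z, h3⟩, h4⟩)
    · exact Or.inl ⟨j, a, b, by rw [h3, h4], h1, h2⟩
    · exact Or.inr ⟨z, by rw [h3, h4]⟩

theorem Un_acc {Y : ℕ → Set ℕ} {j : ℕ} (hj : WellFounded (rl (Y j))) (a : ℕ) :
    Acc (rl (Un Y)) (prn j a + 1) := by
  induction a using hj.induction with
  | _ a ih =>
    refine Acc.intro _ fun y hy => ?_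
    rcases rl_Un.1 hy with ⟨j', b, a', h1, h2, h3, h4⟩ | ⟨_, h⟩
    · obtain ⟨rfl, rfl⟩ := prn_inj (Nat.succ.inj h2)
      rw [h1]
      exact ih b h4
    · exact absurd h (Nat.succ_ne_zero _)

theorem Un_wf (Y : ℕ → Set ℕ) : WellFounded (rl (Un Y)) := by
  have h1 : ∀ z, Acc (rl (Un Y)) (z + 1) := by
    intro z
    by_cases h : ∃ j a, z = prn j a ∧ WellFounded (rl (Y j))
    · obtain ⟨j, a, rfl, h⟩ := h
      exact Un_acc h a
    · refine Acc.intro _ fun y hy => ?_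
      rcases rl_Un.1 hy with ⟨j', b, a', h1, h2, h3, h4⟩ | ⟨_, h'⟩
      · exact absurd ⟨j', a', Nat.succ.inj h2, h3⟩ h
      · exact absurd h' (Nat.succ_ne_zero _)
  refine ⟨fun x => ?_⟩
  cases x with
  | succ z => exact h1 z
  | zero =>
    refine Acc.intro _ fun y hy => ?_
    rcases rl_Un.1 hy with ⟨j', b, a', _, h2, _, _⟩ | ⟨⟨z, rfl⟩, _⟩
    · exact absurd h2.symm (Nat.succ_ne_zero _)
    · exact h1 z

theorem Un_rank {Y : ℕ → Set ℕ} {j : ℕ} (hj : IsWellFounded ℕ (rl (Y j)))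
    (hU : IsWellFounded ℕ (rl (Un Y))) (a : ℕ) : @IsWellFounded.rank ℕ (rl (Y j)) hj a ≤
      @IsWellFounded.rank ℕ (rl (Un Y)) hU (prn j a + 1) := by
  induction a using hj.wf.induction with
  | _ a ih =>
    rw [IsWellFounded.rank_eq (rl (Y j)) a]
    refine Ordinal.iSup_le fun ⟨b, hb⟩ => ?_
    refine Order.succ_le_of_lt (lt_of_le_of_lt (ih b hb) ?_)
    exact IsWellFounded.rank_lt_of_rel (rl_Un.2 (Or.inl ⟨j, b, a, rfl, rfl, hj.wf, hb⟩))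

end Pool.Agent.W941.BM
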