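import Mathlib
import Pool.Agent.W941.BM.Sub
import Pool.Agent.W941.BM.Mod

/-! A `β`-model without `Π¹₁` comprehension. -/

namespace Pool.Agent.W941.BM

open Pool.Agent.Helper617.RM Pool.Agent.Helper317.Atr Pool.Agent.W941.UL

set_option linter.unusedSectionVars false
set_option linter.unusedVariables false

theorem exists_e : ∃ e : ℕ → ℕ → ℕ, ∀ (g : ℕ → ℕ) n, ∃ s, ∀ i, i < n → e s i = g i := by
  refine ⟨fun s i => ((Encodable.decode (α := List ℕ) s).getD []).getD i 0, fun g n =>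
    ⟨Encodable.encode (List.ofFn (fun i : Fin n => g i)), fun i hi => ?_⟩⟩
  simp [hi]

theorem O_mem {O : Set ℕ} {Z : ℕ → ℕ} (h : ZO O Z) : O ∈ Sf Z := by
  refine ⟨1, .memY (ptm (ptm .zero (.var 0)) .one), fun j hj n => ?_⟩
  have h1 : n ∈ O ↔ prn (prn 0 n) 1 ∈ GJ j Z := by
    rw [mem_GJ]
    constructor
    · intro hn
      exact ⟨hj, (h n).1 hn⟩
    · rintro ⟨_, h1⟩
      by_contra hn
      rw [(h n).2 hn] at h1
      exact absurd h1 (by decide)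
  exact h1

open Classical in
theorem RK_bdd (S : Set (Set ℕ)) : BddAbove (RK S) := by
  refine BddAbove.mono ?_ (Ordinal.bddAbove_of_small (s := Set.range (fun p : Set ℕ × ℕ =>
    if h : IsWellFounded ℕ (rl p.1) then @IsWellFounded.rank ℕ (rl p.1) h p.2 else 0)))
  rintro o ⟨X, _, h, x, rfl⟩
  exact ⟨(X, x), by simp [h]⟩

/-- the height -/
noncomputable def hts (S : Set (Set ℕ)) : Ordinal.{0} := sInf {o | ∀ o' ∈ RK S, o' < o}

theorem hts_spec (S : Set (Set ℕ)) : ∀ o' ∈ RK S, o' < hts S := by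
  have : hts S ∈ {o | ∀ o' ∈ RK S, o' < o} := by
    refine csInf_mem ?_
    obtain ⟨b, hb⟩ := RK_bdd S
    exact ⟨Order.succ b, fun o' ho' => Order.lt_succ_of_le (hb ho')⟩
  exact this

theorem wf_iff {R : ℕ → ℕ → Prop} : ¬ WellFounded R ↔ ∃ f : ℕ → ℕ, ∀ i, R (f (i + 1)) (f i) := by
  rw [wellFounded_iff_isEmpty_descending_chain]
  constructor
  · intro h
    rw [not_isEmpty_iff] at h
    obtain ⟨f, hf⟩ := h
    exact ⟨f, hf⟩
  · rintro ⟨f, hf⟩ h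
    exact h.false ⟨f, hf⟩

section step

variable {τ : ℕ → OpForm (nat ∅)} {C : ℕ → (ℕ → ℕ) → Prop} {e : ℕ → ℕ → ℕ}

theorem Un_mem {S : Set (Set ℕ)} (hβ : IsBeta (nat S)) (hPi : Pi11Comp (nat S)) {Z : ℕ → ℕ}
    (hZ : {p | ∃ i, p = prn i (Z i)} ∈ S) : Un (Yj Z) ∈ S := by
  have := hβ.rca
  have : Sig1 (nat S) := sig1_of_arithComp hβ.aca
  have hgr : ∀ i c : ℕ, prn i c ∈ {p | ∃ i, p = prn i (Z i)} ↔ Z i = c := by
    intro i c
    constructor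
    · rintro ⟨i', h⟩
      obtain ⟨rfl, rfl⟩ := prn_inj h
      rfl
    · rintro rfl; exact ⟨i, rfl⟩
  have hrl : ∀ j a b : ℕ, rl (Yj Z j) a b ↔
      prn (prn j (prn a b + prn a b + 1)) 1 ∈ {p | ∃ i, p = prn i (Z i)} := by
    intro j a b
    rw [hgr, ← two_mul]
    exact Iff.rfl
  have hAY : AY (N := nat S) (fun v Y => Fn Y ∧ ∀ i a b : (nat S).M, pr i a ∈ Y →
      pr (i + 1) b ∈ Y → pr (pr (v 0) (pr b a + pr b a + 1)) 1 ∈ {p | ∃ i, p = prn i (Z i)}) := by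
    refine AY.and (Fn_AY.comp CM.id) (AY.all (AY.all (AY.all (AY.imp (AY.memY ?_) (AY.imp
      (AY.memY ?_) (AY.of_D0 (D0.mem ?_ hZ)))))))
    · exact (Tm.var 2).pr (Tm.var 1)
    · exact ((Tm.var 2).add Tm.one).pr (Tm.var 0)
    · exact ((Tm.var 3).pr ((((Tm.var 0).pr (Tm.var 1)).add ((Tm.var 0).pr (Tm.var 1))).add
        Tm.one)).pr Tm.one
  obtain ⟨φ, hφ⟩ := hAY.not
  have hW : {j : ℕ | WellFounded (rl (Yj Z j))} ∈ S := by
    have h1 := hPi φ (fun _ => (0 : ℕ))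
    have e1 : {j : ℕ | WellFounded (rl (Yj Z j))} = {n : ℕ | ∀ Y ∈ (nat S).Sets, φ.Holds Y
        (cons n fun _ => (0 : ℕ))} := by
      refine Set.ext fun j => ?_
      show WellFounded (rl (Yj Z j)) ↔ ∀ Y ∈ S, φ.Holds Y (cons j fun _ => (0 : ℕ))
      rw [← not_iff_not, wf_iff]
      push Not
      constructor
      · rintro ⟨f, hf⟩
        obtain ⟨Y, hY, hY'⟩ := hβ.ay (hAY) (cons j fun _ => (0 : ℕ))
          ⟨{p : ℕ | ∃ i, p = prn i (f i)}, ⟨fun i => ⟨f i, i, rfl⟩, by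
            rintro i a b ⟨i', h1⟩ ⟨i'', h2⟩
            obtain ⟨rfl, rfl⟩ := prn_inj h1
            obtain ⟨h3, rfl⟩ := prn_inj h2
            rw [h3]⟩, by
            rintro i a b ⟨i', h1⟩ ⟨i'', h2⟩
            obtain ⟨rfl, rfl⟩ := prn_inj h1
            obtain ⟨rfl, rfl⟩ := prn_inj h2
            exact (hrl _ _ _).1 (hf _)⟩
        exact ⟨Y, hY, fun h => (hφ _ _).1 h hY'⟩
      · rintro ⟨Y, hY, hY'⟩
        have h2 := not_not.1 (fun h => hY' ((hφ _ _).2 h))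
        obtain ⟨f, hf⟩ := fn_ex h2.1
        refine ⟨f, fun i => (hrl _ _ _).2 (h2.2 i _ _ ((hf _ _).2 rfl) ((hf _ _).2 rfl))⟩
    rw [e1]
    exact h1
  have h2 : D0 (N := nat S) (fun v => (∃ j a b : (nat S).M, v 0 = pr (pr j a + 1) (pr j b + 1) ∧
      j ∈ {j : ℕ | WellFounded (rl (Yj Z j))} ∧
      pr (pr j (pr a b + pr a b + 1)) 1 ∈ {p | ∃ i, p = prn i (Z i)}) ∨
      ∃ z : (nat S).M, v 0 = pr (z + 1) 0) := by
    refine D0.or (D0.ex (D0.ex (D0.ex (D0.and (D0.eq (Tm.var 3) ?_) (D0.and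
      (D0.mem (Tm.var 2) hW) (D0.mem ?_ hZ)))))) (D0.ex (D0.eq (Tm.var 1) ?_))
    · exact (((Tm.var 2).pr (Tm.var 1)).add Tm.one).pr (((Tm.var 2).pr (Tm.var 0)).add Tm.one)
    · exact ((Tm.var 2).pr ((((Tm.var 1).pr (Tm.var 0)).add ((Tm.var 1).pr (Tm.var 0))).add
        Tm.one)).pr Tm.one
    · exact ((Tm.var 0).add Tm.one).pr Tm.zero
  have h3 := comp_D0 (N := nat S) (P := fun x => (∃ j a b : (nat S).M,
      x = pr (pr j a + 1) (pr j b + 1) ∧ j ∈ {j : ℕ | WellFounded (rl (Yj Z j))} ∧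
      pr (pr j (pr a b + pr a b + 1)) 1 ∈ {p | ∃ i, p = prn i (Z i)}) ∨
      ∃ z : (nat S).M, x = pr (z + 1) 0) h2
  have e1 : Un (Yj Z) = {x : ℕ | (∃ j a b : (nat S).M, x = pr (pr j a + 1) (pr j b + 1) ∧
      j ∈ {j : ℕ | WellFounded (rl (Yj Z j))} ∧
      pr (pr j (pr a b + pr a b + 1)) 1 ∈ {p | ∃ i, p = prn i (Z i)}) ∨
      ∃ z : (nat S).M, x = pr (z + 1) 0} := by
    refine Set.ext fun x => or_congr ?_ Iff.rfl
    exact exists_congr fun j => exists_congr fun a => exists_congr fun b =>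
      and_congr_right fun _ => and_congr_right fun _ => hrl j a b
  rw [e1]
  exact h3

theorem bstep (hτ : ∀ φ k, ∃ j, k ≤ j ∧ τ j = φ) (hC : ∀ j, CC (τ j) j (C j))
    (hget : ∀ (g : ℕ → ℕ) n, ∃ s, ∀ i, i < n → e s i = g i)
    {S : Set (Set ℕ)} (hβ : IsBeta (nat S)) (hO : jn (Th C e) (Eg e) ∈ S)
    (hPi : Pi11Comp (nat S)) :
    ∃ S', IsBeta (nat S') ∧ jn (Th C e) (Eg e) ∈ S' ∧ hts S' < hts S := by
  have := hβ.rca
  have : Sig1 (nat S) := sig1_of_arithComp hβ.aca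
  have hTh : Th C e ∈ S := by
    have h1 : D0 (N := nat S) (fun v => pr 0 (v 0) ∈ jn (Th C e) (Eg e)) :=
      D0.mem (Tm.zero.pr (Tm.var 0)) hO
    have h2 := comp_D0 (N := nat S) (P := fun x => pr 0 x ∈ jn (Th C e) (Eg e)) h1
    have e1 : Th C e = {x : ℕ | prn 0 x ∈ jn (Th C e) (Eg e)} := Set.ext fun x => jn0.symm
    rw [e1]
    exact h2
  have hE : Eg e ∈ S := by
    have h1 : D0 (N := nat S) (fun v => pr 1 (v 0) ∈ jn (Th C e) (Eg e)) :=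
      D0.mem (Tm.one.pr (Tm.var 0)) hO
    have h2 := comp_D0 (N := nat S) (P := fun x => pr 1 x ∈ jn (Th C e) (Eg e)) h1
    have e1 : Eg e = {x : ℕ | prn 1 x ∈ jn (Th C e) (Eg e)} := Set.ext fun x => jn1.symm
    rw [e1]
    exact h2
  obtain ⟨Z, hZS, hZO, hZ⟩ := mod_main hβ hPi hE hTh hO hget (fun j => (hC j).closed)
    (fun j => (hC j).loc)
  refine ⟨Sf Z, sub_beta hτ hC hZ, O_mem hZO, ?_⟩
  have hU := Un_mem hβ hPi hZS
  have hUw : IsWellFounded ℕ (rl (Un (Yj Z))) := ⟨Un_wf _⟩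
  refine lt_of_le_of_lt (csInf_le' ?_) (hts_spec S _ ⟨_, hU, hUw, 0, rfl⟩)
  rintro o' ⟨X, hX, hXw, x, rfl⟩
  obtain ⟨j, rfl⟩ := sub_eq hτ hC hZ hX
  refine lt_of_le_of_lt (Un_rank hXw hUw x) ?_
  exact IsWellFounded.rank_lt_of_rel (rl_Un.2 (Or.inr ⟨⟨_, rfl⟩, rfl⟩))

end step

/-- some `β`-model does not satisfy `Π¹₁` comprehension -/
theorem exists_beta : ∃ S : Set (Set ℕ), IsBeta (nat S) ∧ ¬ Pi11Comp (nat S) := by
  obtain ⟨τ, hτ⟩ := exists_tasks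
  choose C hC using fun j => exists_CC (τ j) j
  obtain ⟨e, hget⟩ := exists_e
  have key : ∀ o : Ordinal.{0}, ∀ S : Set (Set ℕ), hts S = o → IsBeta (nat S) →
      jn (Th C e) (Eg e) ∈ S → ∃ S' : Set (Set ℕ), IsBeta (nat S') ∧ ¬ Pi11Comp (nat S') := by
    intro o
    induction o using WellFoundedLT.induction with
    | _ o ih =>
      intro S hS hβ hO
      by_cases hPi : Pi11Comp (nat S)
      · obtain ⟨S', h1, h2, h3⟩ := bstep hτ hC hget hβ hO hPi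
        exact ih (hts S') (hS ▸ h3) S' rfl h1 h2
      · exact ⟨S, hβ, hPi⟩
  exact key _ Set.univ rfl (fun θ v ⟨Y, h⟩ => ⟨Y, trivial, h⟩) trivial

/-- `ATR₀` does not prove `Π¹₁` comprehension -/
theorem atr_not_pi : ∃ N : L2Structure.{0}, IsModelATR0 N ∧ ¬ Pi11Comp N := by
  obtain ⟨S, h1, h2⟩ := exists_beta
  exact ⟨nat S, h1.atr, h2⟩

end Pool.Agent.W941.BM
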